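import Mathlib
import Pool.Agent.Run7.h570.Design
import Pool.Agent.Run7.h570.AbReg

/-!
Let `k` be even.  If a design with parameters `(k(2k-1), 4k²-1, 2k+1, k, 1)` has an abelian group of
automorphisms which is transitive on the points, then `k` is a sum of two squares.
-/

namespace Pool.Agent.Results.MP_de2f37_co.AbelianTransitive

open Run7.h570

theorem result (k : ℕ) (hk : Even k) (V : Type) [Fintype V] [DecidableEq V]
    (B : Finset (Finset V)) (hB : IsDesign k B) (G : Subgroup (Equiv.Perm V))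
    (hcomm : ∀ g ∈ G, ∀ h ∈ G, g * h = h * g)
    (hinv : ∀ g ∈ G, ∀ b ∈ B, b.image g ∈ B)
    (htrans : ∀ x y : V, ∃ g ∈ G, g x = y) :
    ∃ a b : ℕ, k = a ^ 2 + b ^ 2 := by
  let _ : CommGroup G :=
    { (inferInstance : Group G) with
      mul_comm := fun g h => Subtype.ext (hcomm g.1 g.2 h.1 h.2) }
  refine abelianRegular_sum_two_squares (G := G) hk hB (fun g b hb => hinv g.1 g.2 b hb) ?_
  intro x y
  obtain ⟨g, hg, hgx⟩ := htrans x y
  refine ⟨⟨g, hg⟩, hgx, ?_⟩
  rintro ⟨g', hg'⟩ hg'x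
  apply Subtype.ext
  apply Equiv.ext
  intro z
  obtain ⟨c, hc, hcz⟩ := htrans x z
  have h1 : g' x = g x := by
    rw [hgx]; exact hg'x
  calc g' z = (g' * c) x := by rw [← hcz]; rfl
    _ = (c * g') x := by rw [hcomm g' hg' c hc]
    _ = c (g x) := by rw [← h1]; rfl
    _ = (c * g) x := rfl
    _ = (g * c) x := by rw [hcomm c hc g hg]
    _ = g z := by rw [← hcz]; rfl

end Pool.Agent.Results.MP_de2f37_co.AbelianTransitive
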