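import Mathlib
import Pool.Agent.Run7.h570.Design
import Pool.Agent.Run7.h570.TransOff

/-!
If a group of automorphisms of a design with parameters `(k(2k-1), 4k²-1, 2k+1, k, 1)` fixes a point
and is transitive on the remaining points, while some subgroup of index two is not, then `k` is a sum
of two squares.
-/

namespace Pool.Agent.Results.MP_de2f37_co.OnePointFixed

open Run7.h570

theorem result (k : ℕ) (V : Type) [Fintype V] [DecidableEq V] (B : Finset (Finset V))
    (hB : IsDesign k B) (p : V) (G N : Subgroup (Equiv.Perm V))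
    (hinv : ∀ g ∈ G, ∀ b ∈ B, b.image g ∈ B) (hp : ∀ g ∈ G, g p = p)
    (htrans : ∀ x y : V, x ≠ p → y ≠ p → ∃ g ∈ G, g x = y)
    (hNG : N ≤ G) (hidx : N.relIndex G = 2)
    (hint : ¬ ∀ x y : V, x ≠ p → y ≠ p → ∃ g ∈ N, g x = y) :
    ∃ a b : ℕ, k = a ^ 2 + b ^ 2 := by
  push Not at hint
  obtain ⟨x₀, y₀, hx₀, hy₀, hxy⟩ := hint
  exact transOff_sum_two_squares hB p G N hinv hp htrans hNG hidx x₀ y₀ hx₀ hy₀ hxy

end Pool.Agent.Results.MP_de2f37_co.OnePointFixed
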